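import Mathlib

namespace Pool.Agent.Results.MP_8ac0e4_co.Cex

open Finset Filter Topology

/-- The grid `[k]^d`, ordered coordinatewise. -/
def grid (d k : ℕ) : Finset (Fin d → ℕ) := Fintype.piFinset fun _ => Icc 1 k

/-- `w_{k,d}`: the largest size of an antichain of the grid. -/
noncomputable def w (d k : ℕ) : ℕ :=
  sSup {r | ∃ A ⊆ grid d k, IsAntichain (· ≤ ·) (A : Set (Fin d → ℕ)) ∧ #A = r}

/-- `F` has no strong copy of the poset `a < b`, `a < c` with `b`, `c` incomparable. -/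
def Free {d : ℕ} (F : Finset (Fin d → ℕ)) : Prop :=
  ¬ ∃ a ∈ F, ∃ b ∈ F, ∃ c ∈ F, a < b ∧ a < c ∧ ¬ b ≤ c ∧ ¬ c ≤ b

/-- The largest size of a strong `∨₂`-free subset of the grid. -/
noncomputable def La (d k : ℕ) : ℕ := sSup {r | ∃ F ⊆ grid d k, Free F ∧ #F = r}

theorem le3 {a b : Fin 3 → ℕ} : a ≤ b ↔ a 0 ≤ b 0 ∧ a 1 ≤ b 1 ∧ a 2 ≤ b 2 :=
  ⟨fun h => ⟨h 0, h 1, h 2⟩, fun h i => by fin_cases i; exacts [h.1, h.2.1, h.2.2]⟩

theorem mg {a : Fin 3 → ℕ} {k : ℕ} : a ∈ grid 3 k ↔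
    (1 ≤ a 0 ∧ a 0 ≤ k) ∧ (1 ≤ a 1 ∧ a 1 ≤ k) ∧ 1 ≤ a 2 ∧ a 2 ≤ k := by
  simp only [grid, Fintype.mem_piFinset, mem_Icc]
  exact ⟨fun h => ⟨h 0, h 1, h 2⟩, fun h i => by fin_cases i; exacts [h.1, h.2.1, h.2.2]⟩

theorem wle (m : ℕ) : w 3 (4 * m) ≤ 12 * m ^ 2 := by
  refine csSup_le ⟨0, ∅, by simp⟩ ?_
  rintro _ ⟨A, hA, an, rfl⟩
  have e : ∀ a ∈ A, ∀ b ∈ A, a ≤ b ∨ b ≤ a → a = b := fun a ha b hb h => by
    by_contra n
    exact h.elim (an ha hb n) (an hb ha (Ne.symm n))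
  have c1 : #{a ∈ A | min (a 0) (4 * m + 1 - a 1) ≤ 2 * m} ≤ #(Icc 1 (2 * m) ×ˢ Icc 1 (4 * m)) := by
    refine card_le_card_of_injOn (fun a => (min (a 0) (4 * m + 1 - a 1), a 2)) (fun a ha => ?_)
      fun a ha b hb h => ?_
    · have ha := mem_filter.1 (mem_coe.1 ha)
      have := mg.1 (hA ha.1)
      simp only [coe_product, coe_Icc, Set.mem_prod, Set.mem_Icc]
      omega
    · have ha := mem_filter.1 (mem_coe.1 ha)
      have hb := mem_filter.1 (mem_coe.1 hb)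
      have := mg.1 (hA ha.1)
      have := mg.1 (hA hb.1)
      simp only [Prod.mk.injEq] at h
      exact e a ha.1 b hb.1 (by rw [le3, le3]; omega)
  have c2 : #{a ∈ A | ¬ min (a 0) (4 * m + 1 - a 1) ≤ 2 * m} ≤
      #(Icc (2 * m + 1) (4 * m) ×ˢ Icc 1 (2 * m)) := by
    refine card_le_card_of_injOn (fun a => (a 0, a 1)) (fun a ha => ?_) fun a ha b hb h => ?_
    · have ha := mem_filter.1 (mem_coe.1 ha)
      have := mg.1 (hA ha.1)
      simp only [coe_product, coe_Icc, Set.mem_prod, Set.mem_Icc]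
      omega
    · simp only [Prod.mk.injEq] at h
      exact e a (mem_filter.1 (mem_coe.1 ha)).1 b (mem_filter.1 (mem_coe.1 hb)).1
        (by rw [le3, le3]; omega)
  have := card_filter_add_card_filter_not (s := A) fun a => min (a 0) (4 * m + 1 - a 1) ≤ 2 * m
  rw [card_product, Nat.card_Icc, Nat.card_Icc] at c1 c2
  rw [show 4 * m + 1 - (2 * m + 1) = 2 * m by omega] at c2
  simp only [Nat.add_sub_cancel] at c1 c2
  nlinarith

theorem wpos (m : ℕ) (hm : 1 ≤ m) : 1 ≤ w 3 (4 * m) := by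
  refine le_csSup ⟨#(grid 3 (4 * m)), ?_⟩ ⟨{fun _ => 1}, ?_, by simp, rfl⟩
  · rintro _ ⟨A, hA, -, rfl⟩
    exact card_le_card hA
  · rw [singleton_subset_iff, mg]
    omega

def P (m : ℕ) (a : Fin 3 → ℕ) : Prop := a 1 + a 2 + (a 0 + 1) / 2 = 5 * m + 2 ∨
  (a 0 % 2 = 0 ∧ a 1 + a 2 + a 0 / 2 = 5 * m + 3 ∧ a 1 % 3 = a 0 / 2 % 3)

instance (m : ℕ) : DecidablePred (P m) := fun _ => by unfold P; infer_instance

def N (m t : ℕ) : ℕ := 4 * m - (m - t) - (t - m)

theorem sN (m : ℕ) : ∑ t ∈ range (2 * m), N m t = 7 * m ^ 2 := by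
  have a : ∀ j ≤ m, 2 * ∑ t ∈ range j, N m t + j = 6 * m * j + j ^ 2 := by
    intro j
    induction j with
    | zero => simp
    | succ j ih =>
      intro h
      have := ih (by omega)
      have e : N m j = 3 * m + j := by unfold N; omega
      rw [sum_range_succ, e]
      nlinarith
  have b : ∀ j ≤ m, 2 * ∑ t ∈ range (m + j), N m t + m + j ^ 2 = 7 * m ^ 2 + 8 * m * j + j := by
    intro j
    induction j with
    | zero => have := a m le_rfl; intro _; simp only [add_zero]; nlinarith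
    | succ j ih =>
      intro h
      have := ih (by omega)
      have e : N m (m + j) + j = 4 * m := by unfold N; omega
      rw [← add_assoc, sum_range_succ]
      nlinarith
  have := b m le_rfl
  rw [two_mul m]
  nlinarith

theorem low (m : ℕ) : 49 * m ^ 2 ≤ 3 * La 3 (4 * m) + 10 * m := by
  have fr : Free {a ∈ grid 3 (4 * m) | P m a} := by
    rintro ⟨a, ha, b, hb, c, hc, u, v, x, y⟩
    have ha := (mem_filter.1 ha).2
    have hb := (mem_filter.1 hb).2
    have hc := (mem_filter.1 hc).2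
    have u1 := le3.1 u.le
    have v1 := le3.1 v.le
    rw [le3] at x y
    unfold P at ha hb hc
    have k1 : b 1 = a 1 ∨ b 1 = a 1 + 1 := by omega
    have k2 : c 1 = a 1 ∨ c 1 = a 1 + 1 := by omega
    have k3 : c 0 / 2 = b 0 / 2 + 1 ∨ b 0 / 2 = c 0 / 2 + 1 ∨ b 0 / 2 = c 0 / 2 := by omega
    rcases k1 with k1 | k1 <;> rcases k2 with k2 | k2 <;> rcases k3 with k3 | k3 | k3 <;>
      rw [k1, k2] at * <;> omega
  have le : #{a ∈ grid 3 (4 * m) | P m a} ≤ La 3 (4 * m) := by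
    refine le_csSup ⟨#(grid 3 (4 * m)), ?_⟩ ⟨_, filter_subset _ _, fr, rfl⟩
    rintro _ ⟨A, hA, -, rfl⟩
    exact card_le_card hA
  have c : #((range (2 * m)).sigma fun t => range (2 * N m t + (N m t / 3 - 1))) ≤
      #{a ∈ grid 3 (4 * m) | P m a} := by
    refine card_le_card_of_injOn (fun s => if s.2 < 2 * N m s.1 then
      ![2 * s.1 + 1 + s.2 % 2, m - s.1 + s.2 / 2 + 1, 5 * m - s.1 - (m - s.1 + s.2 / 2)] else
      ![2 * s.1 + 2, 3 * (s.2 - 2 * N m s.1 + (m - s.1 + 1) / 3 + 1) + (s.1 + 1) % 3,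
        5 * m + 2 - s.1 - (3 * (s.2 - 2 * N m s.1 + (m - s.1 + 1) / 3 + 1) + (s.1 + 1) % 3)])
      (fun s hs => ?_) fun s hs r hr h => ?_
    · obtain ⟨t, i⟩ := s
      simp only [coe_sigma, Set.mem_sigma_iff, coe_range, Set.mem_Iio] at hs
      simp only [coe_filter, Set.mem_ofPred_eq, mg, P]
      unfold N at *
      split_ifs with g
      · simp only [Matrix.cons_val_zero, Matrix.cons_val_one, Matrix.cons_val_two, Matrix.head_cons,
          Matrix.tail_cons]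
        omega
      · simp only [Matrix.cons_val_zero, Matrix.cons_val_one, Matrix.cons_val_two, Matrix.head_cons,
          Matrix.tail_cons]
        omega
    · obtain ⟨t, i⟩ := s
      obtain ⟨t', j⟩ := r
      simp only [coe_sigma, Set.mem_sigma_iff, coe_range, Set.mem_Iio] at hs hr
      have : t = t' ∧ i = j := by
        have h0 := congrFun h 0
        have h1 := congrFun h 1
        have h2 := congrFun h 2
        clear h
        unfold N at *
        dsimp only at h0 h1 h2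
        split_ifs at h0 h1 h2 <;>
        simp only [Matrix.cons_val_zero, Matrix.cons_val_one, Matrix.cons_val_two, Matrix.head_cons,
          Matrix.tail_cons] at h0 h1 h2 <;> omega
      obtain ⟨rfl, rfl⟩ := this
      rfl
  rw [card_sigma] at c
  simp only [card_range] at c
  have s : ∑ t ∈ range (2 * m), 7 * N m t ≤
      ∑ t ∈ range (2 * m), (3 * (2 * N m t + (N m t / 3 - 1)) + 5) :=
    sum_le_sum fun t _ => by omega
  rw [← mul_sum, sN, sum_add_distrib, ← mul_sum, sum_const, card_range, smul_eq_mul] at s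
  omega

theorem result : ¬ ∀ d : ℕ, 3 ≤ d →
    Tendsto (fun k => (La d k : ℝ) / w d k) atTop (𝓝 (1 + 1 / (d : ℝ))) := by
  intro H
  obtain ⟨K, hK⟩ := eventually_atTop.1 ((H 3 le_rfl).eventually
    (gt_mem_nhds (show (1 : ℝ) + 1 / (3 : ℕ) < 97 / 72 by norm_num)))
  have h := hK (4 * (K + 20)) (by omega)
  have a : (1 : ℝ) ≤ w 3 (4 * (K + 20)) := by exact_mod_cast wpos _ (by omega)
  have b : (w 3 (4 * (K + 20)) : ℝ) ≤ 12 * (K + 20) ^ 2 := by exact_mod_cast wle (K + 20)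
  have c : (49 : ℝ) * (K + 20) ^ 2 ≤ 3 * La 3 (4 * (K + 20)) + 10 * (K + 20) := by
    exact_mod_cast low (K + 20)
  rw [div_lt_iff₀ (by linarith)] at h
  have : (0 : ℝ) ≤ K := Nat.cast_nonneg K
  nlinarith

end Pool.Agent.Results.MP_8ac0e4_co.Cex
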